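import Pool.Agent.Helper25.LS.Defs

/-!
# Riesz decomposition for compact operators (packet LS-RZ)
-/

set_option autoImplicit false

open Filter Topology Module

noncomputable section

namespace Pool.Agent.Helper20.LS

variable {X : Type} [NormedAddCommGroup X] [NormedSpace ℂ X]

theorem ker_pow_closed (A : X →L[ℂ] X) (n : ℕ) :
    IsClosed ((LinearMap.ker ((A ^ n : X →L[ℂ] X) : X →ₗ[ℂ] X) : Submodule ℂ X) : Set X) := by
  have : ((LinearMap.ker ((A ^ n : X →L[ℂ] X) : X →ₗ[ℂ] X) : Submodule ℂ X) : Set X) =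
      (A ^ n : X →L[ℂ] X) ⁻¹' {0} := rfl
  rw [this]
  exact isClosed_singleton.preimage (A ^ n : X →L[ℂ] X).continuous

theorem pow_le (A : X →L[ℂ] X) {m n : ℕ} (h : m ≤ n) {x : X} (hx : (A ^ m) x = 0) :
    (A ^ n) x = 0 := by
  obtain ⟨k, rfl⟩ := Nat.exists_eq_add_of_le h
  rw [add_comm, pow_add, mul_apply_eq_comp, hx, map_zero]

theorem stab (C : X →L[ℂ] X) (hC : IsCompactOperator C) :
    ∃ p : ℕ, ∀ x : X, ((1 - C) ^ (p + 1)) x = 0 → ((1 - C) ^ p) x = 0 := by
  by_contra hcon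
  push Not at hcon
  set A : X →L[ℂ] X := 1 - C with hA
  obtain ⟨c, hc⟩ := NormedField.exists_one_lt_norm ℂ
  have key : ∀ n : ℕ, ∃ u : X, (A ^ (n + 1)) u = 0 ∧ ‖u‖ ≤ ‖c‖ + 1 ∧
      ∀ y : X, (A ^ n) y = 0 → 1 ≤ ‖u - y‖ := by
    intro n
    obtain ⟨x, hx1, hx2⟩ := hcon n
    let V : Submodule ℂ X := LinearMap.ker ((A ^ (n + 1) : X →L[ℂ] X) : X →ₗ[ℂ] X)
    let F : Submodule ℂ X := LinearMap.ker ((A ^ n : X →L[ℂ] X) : X →ₗ[ℂ] X)
    have h1 : IsClosed ((F.comap V.subtype : Submodule ℂ V) : Set V) :=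
      (ker_pow_closed A n).preimage continuous_subtype_val
    have h2 : ∃ v : V, v ∉ F.comap V.subtype := ⟨⟨x, hx1⟩, fun h => hx2 h⟩
    obtain ⟨u, hu, hu'⟩ := riesz_lemma_of_norm_lt hc (lt_add_one ‖c‖) h1 h2
    refine ⟨u, u.2, hu, fun y hy => ?_⟩
    have hyV : (A ^ (n + 1)) y = 0 := pow_le A (Nat.le_succ n) hy
    exact hu' ⟨y, hyV⟩ hy
  choose u hu1 hu2 hu3 using key
  have hsep : ∀ m n : ℕ, m < n → 1 ≤ ‖C (u n) - C (u m)‖ := by
    intro m n hmn
    have hz : (A ^ n) (A (u n) + C (u m)) = 0 := by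
      rw [map_add]
      have e1 : (A ^ n) (A (u n)) = 0 := by
        have := hu1 n
        rwa [pow_succ, mul_apply_eq_comp] at this
      have e2 : C (u m) = u m - A (u m) := by simp [hA]
      have e3 : (A ^ (m + 1)) (C (u m)) = 0 := by
        rw [e2, map_sub, hu1 m, zero_sub, neg_eq_zero]
        have : (A ^ (m + 1)) (A (u m)) = A ((A ^ (m + 1)) (u m)) := by
          rw [← mul_apply_eq_comp, ← pow_succ, pow_succ',
            mul_apply_eq_comp]
        rw [this, hu1 m, map_zero]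
      rw [e1, pow_le A hmn e3, add_zero]
    have := hu3 n _ hz
    have e4 : u n - (A (u n) + C (u m)) = C (u n) - C (u m) := by
      simp [hA]; abel
    rwa [e4] at this
  obtain ⟨K, hK, hK'⟩ := hC.image_closedBall_subset_compact (‖c‖ + 1)
  obtain ⟨y, hyK, ψ, hψ, hψy⟩ := hK.tendsto_subseq (x := fun n => C (u n))
    (fun n => hK' ⟨u n, by simpa using hu2 n, rfl⟩)
  replace hψy := hψy.cauchySeq
  rw [Metric.cauchySeq_iff'] at hψy
  obtain ⟨N, hN⟩ := hψy 1 one_pos
  have h5 := hN (N + 1) (Nat.le_succ N)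
  rw [dist_eq_norm] at h5
  exact absurd h5 (not_lt.2 (hsep _ _ (hψ (Nat.lt_succ_self N))))

theorem stab' (A : X →L[ℂ] X) (p : ℕ)
    (hp : ∀ x : X, (A ^ (p + 1)) x = 0 → (A ^ p) x = 0) (n : ℕ) (x : X)
    (hx : (A ^ n) x = 0) : (A ^ p) x = 0 := by
  rcases le_total n p with h | h
  · exact pow_le A h hx
  · obtain ⟨k, rfl⟩ := Nat.exists_eq_add_of_le h
    clear h
    induction k generalizing x with
    | zero => exact hx
    | succ k ih =>
      have h1 : (A ^ (p + k)) (A x) = 0 := by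
        rw [← mul_apply_eq_comp, ← pow_succ]
        exact hx
      have h2 := ih (A x) h1
      refine hp x ?_
      rw [pow_succ, mul_apply_eq_comp]
      exact h2

theorem cpt_pow (C : X →L[ℂ] X) (hC : IsCompactOperator C) (p : ℕ) :
    IsCompactOperator ((1 - (1 - C) ^ p : X →L[ℂ] X)) := by
  induction p with
  | zero => simpa using! (isCompactOperator_zero : IsCompactOperator (0 : X → X))
  | succ p ih =>
    have : (1 - (1 - C) ^ (p + 1) : X →L[ℂ] X) =
        (1 - (1 - C) ^ p) + ((1 - C) ^ p) ∘L C := by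
      rw [pow_succ]
      have : (((1 - C) ^ p) ∘L C : X →L[ℂ] X) = (1 - C) ^ p * C := rfl
      rw [this]
      noncomm_ring
    rw [this]
    exact ih.add (hC.clm_comp _)

theorem ker_fd (C : X →L[ℂ] X) (hC : IsCompactOperator C) (p : ℕ) :
    FiniteDimensional ℂ (LinearMap.ker (((1 - C) ^ p : X →L[ℂ] X) : X →ₗ[ℂ] X)) := by
  set V : Submodule ℂ X := LinearMap.ker (((1 - C) ^ p : X →L[ℂ] X) : X →ₗ[ℂ] X) with hV
  have hcl : IsClosed (V : Set X) := ker_pow_closed (1 - C) p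
  have hK := cpt_pow C hC p
  have h1 : ∀ v ∈ V, ((1 - (1 - C) ^ p : X →L[ℂ] X) : X →ₗ[ℂ] X) v ∈ V := by
    intro v hv
    have hv' : ((1 - C) ^ p : X →L[ℂ] X) v = 0 := hv
    have : (1 - (1 - C) ^ p : X →L[ℂ] X) v = v := by
      rw [ContinuousLinearMap.sub_apply, hv', sub_zero]; rfl
    have h' : ((1 - (1 - C) ^ p : X →L[ℂ] X) : X →ₗ[ℂ] X) v = v := this
    rw [h']; exact hv
  have h2 := IsCompactOperator.restrict (f := ((1 - (1 - C) ^ p : X →L[ℂ] X) : X →ₗ[ℂ] X))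
    hK h1 hcl
  have h3 : (((1 - (1 - C) ^ p : X →L[ℂ] X) : X →ₗ[ℂ] X).restrict h1 : V → V) = id := by
    funext v
    apply Subtype.ext
    have hv' : ((1 - C) ^ p : X →L[ℂ] X) (v : X) = 0 := v.2
    have : (1 - (1 - C) ^ p : X →L[ℂ] X) (v : X) = v := by
      rw [ContinuousLinearMap.sub_apply, hv', sub_zero]; rfl
    exact this
  rw [h3] at h2
  exact FiniteDimensional.of_isCompactOperator_id (𝕜 := ℂ) h2

/-- the decomposition for `1 - C` -/
theorem decomp [CompleteSpace X] (C : X →L[ℂ] X) (hC : IsCompactOperator C) (p : ℕ)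
    (hp : ∀ x : X, ((1 - C) ^ (p + 1)) x = 0 → ((1 - C) ^ p) x = 0) (v : X) :
    ∃ w : X, ((1 - C) ^ p) (v - ((1 - C) ^ p) w) = 0 := by
  set A : X →L[ℂ] X := 1 - C with hA
  let N : Submodule ℂ X := LinearMap.ker ((A ^ p : X →L[ℂ] X) : X →ₗ[ℂ] X)
  have hNc : IsClosed (N : Set X) := ker_pow_closed A p
  haveI : IsClosed (N : Set X) := hNc
  have hCA : ∀ x, C x = x - A x := by intro x; simp [hA]
  have hcomm : ∀ x, (A ^ p) (A x) = A ((A ^ p) x) := by
    intro x
    rw [← mul_apply_eq_comp, ← pow_succ, pow_succ', mul_apply_eq_comp]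
  have hN : ∀ x, x ∈ N → C x ∈ N := by
    intro x hx
    have hx' : (A ^ p) x = 0 := hx
    change (A ^ p) (C x) = 0
    rw [hCA, map_sub, hx', hcomm, hx', map_zero, sub_zero]
  let Q : X →L[ℂ] X ⧸ N := N.mkQL
  have hQ0 : ∀ x, Q x = 0 ↔ x ∈ N := by
    intro x
    change N.mkQ x = 0 ↔ x ∈ N
    exact Submodule.Quotient.mk_eq_zero N
  let D : (X ⧸ N) →L[ℂ] (X ⧸ N) := N.liftQL (Q ∘L C) (by
    intro x hx
    change Q (C x) = 0
    rw [hQ0]
    exact hN x hx)
  have hD : ∀ x, D (Q x) = Q (C x) := fun x => rfl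
  have hDc : IsCompactOperator D := by
    obtain ⟨K, hK, hK'⟩ := hC
    refine ⟨Q '' K, hK.image Q.continuous, ?_⟩
    have h1 : Q '' (C ⁻¹' K) ∈ 𝓝 (0 : X ⧸ N) := by
      have := (N.isOpenQuotientMap_mkQL).isOpenMap.image_mem_nhds hK'
      simpa using! this
    refine Filter.mem_of_superset h1 ?_
    rintro _ ⟨x, hx, rfl⟩
    exact ⟨C x, hx, (hD x).symm⟩
  have hres := IsCompactOperator.hasEigenvalue_or_mem_resolventSet (μ := (1 : ℂ)) hDc one_ne_zero
  have hnot : ¬ Module.End.HasEigenvalue (D : Module.End ℂ (X ⧸ N)) 1 := by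
    intro he
    obtain ⟨y, hy⟩ := he.exists_hasEigenvector
    obtain ⟨x, rfl⟩ := Submodule.mkQ_surjective N y
    have h1 : D (Q x) = Q x := by
      have := hy.apply_eq_smul
      simpa using! this
    apply hy.2
    change Q x = 0
    rw [hQ0]
    change (A ^ p) x = 0
    apply hp
    rw [hD, ← sub_eq_zero, ← map_sub, hQ0, hCA] at h1
    have h2 : (A ^ p) (x - A x - x) = 0 := h1
    have h3 : x - A x - x = - A x := by abel
    rw [h3, map_neg, neg_eq_zero] at h2
    rw [pow_succ, mul_apply_eq_comp]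
    exact h2
  have hmem := hres.resolve_left hnot
  rw [spectrum.mem_resolventSet_iff, ContinuousLinearMap.isUnit_iff_bijective] at hmem
  have hsurj : ∀ y : X ⧸ N, ∃ z : X, Q z - D (Q z) = y := by
    intro y
    obtain ⟨z, hz⟩ := hmem.2 y
    obtain ⟨x, rfl⟩ := Submodule.mkQ_surjective N z
    refine ⟨x, ?_⟩
    simpa using! hz
  have hstep : ∀ v : X, ∃ z : X, v - A z ∈ N := by
    intro v
    obtain ⟨z, hz⟩ := hsurj (Q v)
    refine ⟨z, ?_⟩
    rw [← hQ0, map_sub, ← hz, hD]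
    rw [hCA, map_sub]
    abel
  have hall : ∀ k : ℕ, ∀ v : X, ∃ z : X, v - (A ^ k) z ∈ N := by
    intro k
    induction k with
    | zero => intro v; exact ⟨v, by simp⟩
    | succ k ih =>
      intro v
      obtain ⟨z, hz⟩ := ih v
      obtain ⟨z', hz'⟩ := hstep z
      refine ⟨z', ?_⟩
      have h1 : v - (A ^ (k + 1)) z' = (v - (A ^ k) z) + (A ^ k) (z - A z') := by
        rw [map_sub, ← mul_apply_eq_comp (A ^ k) A z', ← pow_succ]
        abel
      rw [h1]
      refine N.add_mem hz ?_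
      change (A ^ p) ((A ^ k) (z - A z')) = 0
      rw [← mul_apply_eq_comp, ← pow_add, add_comm, pow_add,
        mul_apply_eq_comp]
      have : (A ^ p) (z - A z') = 0 := hz'
      rw [this, map_zero]
  obtain ⟨w, hw⟩ := hall p v
  exact ⟨w, hw⟩

theorem rz : Pool.Agent.Helper25.LS.S_RZ := by
  intro X _ _ _ T hT μ hμ
  set C : X →L[ℂ] X := μ⁻¹ • T with hCdef
  have hC : IsCompactOperator C := by
    have := hT.smul (μ⁻¹)
    exact this
  have hS : ∀ n : ℕ, ∀ x : X, (((T : X →ₗ[ℂ] X) - algebraMap ℂ (Module.End ℂ X) μ) ^ n) x =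
      (-μ) ^ n • ((1 - C) ^ n : X →L[ℂ] X) x := by
    intro n
    induction n with
    | zero => intro x; simp
    | succ n ih =>
      intro x
      have h1 : ((T : X →ₗ[ℂ] X) - algebraMap ℂ (Module.End ℂ X) μ) x =
          (-μ) • ((1 - C) x) := by
        simp only [LinearMap.sub_apply, Module.algebraMap_end_apply, hCdef]
        change T x - μ • x = -μ • (x - μ⁻¹ • T x)
        rw [smul_sub, smul_smul]
        have : -μ * μ⁻¹ = -1 := by field_simp
        rw [this]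
        module
      rw [pow_succ, Module.End.mul_apply, h1, map_smul, ih, pow_succ (1 - C),
        mul_apply_eq_comp, smul_smul, pow_succ']
  obtain ⟨p, hp⟩ := stab C hC
  have hne : ∀ n : ℕ, (-μ) ^ n ≠ 0 := fun n => pow_ne_zero _ (neg_ne_zero.2 hμ)
  constructor
  · have h1 : Module.End.maxGenEigenspace (T : X →ₗ[ℂ] X) μ ≤
        LinearMap.ker (((1 - C) ^ p : X →L[ℂ] X) : X →ₗ[ℂ] X) := by
      intro x hx
      rw [Module.End.mem_maxGenEigenspace] at hx
      obtain ⟨k, hk⟩ := hx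
      have h2 : (T : X →ₗ[ℂ] X) - μ • (1 : Module.End ℂ X) =
          (T : X →ₗ[ℂ] X) - algebraMap ℂ (Module.End ℂ X) μ := by
        rw [Algebra.algebraMap_eq_smul_one]
      rw [h2, hS, smul_eq_zero] at hk
      exact stab' (1 - C) p hp k x (hk.resolve_left (hne k))
    haveI := ker_fd C hC p
    exact Submodule.finiteDimensional_of_le h1
  · refine ⟨p, fun v => ?_⟩
    obtain ⟨w, hw⟩ := decomp C hC p hp v
    refine ⟨((-μ) ^ p)⁻¹ • w, ?_⟩
    rw [hS, hS, map_smul, smul_smul, mul_inv_cancel₀ (hne p), one_smul, hw, smul_zero]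

end Pool.Agent.Helper20.LS
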